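import Mathlib
import Pool.Agent.N988.EA.Stm4
import Pool.Agent.N988.EA.A2

/-!
# Project EA (helper988): almost sure polarisation
-/

set_option autoImplicit false

open MeasureTheory Set Filter
open scoped ENNReal Topology

namespace Pool.Agent.N225.EA

open Pool.Agent.N988.EA

theorem gp_comm (a b : ℝ) : gp a b = gp b a := by
  unfold gp
  rw [abs_sub_comm]

theorem cpl_smul {b : ℕ} (p : ℕ → Fin b × Bool) (β : ℝ) (J : EdgeInf b p → ℝ) :
    ∀ n : ℕ, cpl p (fun e => β * J e) n = fun e => β * cpl p J n e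
  | 0 => rfl
  | n + 1 => by
    funext e
    unfold cpl
    split_ifs with h
    · exact congrFun (cpl_smul p β J n) _
    · rfl

theorem cpl_own {b : ℕ} (p : ℕ → Fin b × Bool) (J : EdgeInf b p → ℝ) (n : ℕ) :
    cpl p J n = fun e => cpl p J (n + 1) ((p n).1, (p n).2, e) := by
  funext e
  conv_rhs => unfold cpl
  split_ifs with h
  · rfl
  · exact absurd rfl h

theorem gp_own {b : ℕ} (p : ℕ → Fin b × Bool) (J : EdgeInf b p → ℝ) (n : ℕ) :
    gp (own p J n) (sib p J n) =
      gp (K n fun e => cpl p J (n + 1) ((p n).1, false, e))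
        (K n fun e => cpl p J (n + 1) ((p n).1, true, e)) := by
  unfold own sib
  rw [cpl_own p J n]
  cases h : (p n).2
  · rfl
  · rw [gp_comm]
    rfl

theorem t_GZ (h1 : S_GAP2) (h2 : S_H) (h3 : S_MARG) : S_GZ := by
  intro b hb μ _ hs r hr hw
  obtain ⟨β₀, hβ₀, h⟩ := h1 b hb μ hs r hr hw
  refine ⟨β₀, hβ₀, fun β hβ p => ?_⟩
  obtain ⟨k, hk⟩ := h 1 one_pos
  have hmβ : Measurable fun x : ℝ => β * x := measurable_const_mul β
  have hμβ : IsProbabilityMeasure (μ.map fun x => β * x) :=
    Measure.isProbabilityMeasure_map hmβ.aemeasurable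
  set g : ℕ → ℝ := fun j => ∫ p : ℝ × ℝ, gp p.1 p.2
      ∂((lw (μ.map fun x => β * x) b j).prod (lw (μ.map fun x => β * x) b j)) with hg
  have hg0 : ∀ j, 0 ≤ g j := fun j => integral_nonneg fun p => gp_nonneg _ _
  have hsum : Summable g := by
    rw [← summable_nat_add_iff k]
    refine summable_of_sum_range_le (c := 1) (fun n => hg0 _) fun n => ?_
    have h4 := hk β hβ (k + n)
    rw [Finset.sum_Ico_eq_sum_range, Nat.add_sub_cancel_left] at h4
    refine le_trans (le_of_eq ?_) h4
    exact Finset.sum_congr rfl fun i _ => by rw [hg, add_comm]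
  have hlaw : ∀ n, Measurable (fun J : EdgeInf b p → ℝ =>
      gp (own p (fun e => β * J e) n) (sib p (fun e => β * J e) n)) ∧
      ∫⁻ J, ENNReal.ofReal (gp (own p (fun e => β * J e) n) (sib p (fun e => β * J e) n))
        ∂(Measure.infinitePi fun _ : EdgeInf b p => μ) = ENNReal.ofReal (g n) := by
    intro n
    obtain ⟨m1, m2⟩ := h3 μ b p (n + 1)
    obtain ⟨-, -, -, m3, -⟩ := h2 (μ.map fun x => β * x) b n
    have hK := (h2 (μ.map fun x => β * x) b n).1
    set Ψ : (Edge b (n + 1) → ℝ) → ℝ × ℝ := fun J =>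
      ((K n fun e => J ((p n).1, false, e)), (K n fun e => J ((p n).1, true, e))) with hΨ
    have hΨm : Measurable Ψ :=
      (hK.comp (measurable_pi_lambda _ fun e => measurable_pi_apply _)).prodMk
        (hK.comp (measurable_pi_lambda _ fun e => measurable_pi_apply _))
    have hb' : Measurable fun (J : Edge b (n + 1) → ℝ) e => β * J e :=
      measurable_pi_lambda _ fun e => hmβ.comp (measurable_pi_apply e)
    have e1 : (fun J : EdgeInf b p → ℝ =>
        gp (own p (fun e => β * J e) n) (sib p (fun e => β * J e) n)) =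
        (fun q : ℝ × ℝ => gp q.1 q.2) ∘ Ψ ∘
          (fun (J : Edge b (n + 1) → ℝ) e => β * J e) ∘ fun J => cpl p J (n + 1) := by
      funext J
      rw [gp_own, cpl_smul]
      rfl
    have e2 : Measurable (Ψ ∘ (fun (J : Edge b (n + 1) → ℝ) e => β * J e) ∘
        fun J : EdgeInf b p → ℝ => cpl p J (n + 1)) := hΨm.comp (hb'.comp m1)
    refine ⟨by rw [e1]; exact meas_gp.comp e2, ?_⟩
    have e3 : (Measure.infinitePi fun _ : EdgeInf b p => μ).map
        (Ψ ∘ (fun (J : Edge b (n + 1) → ℝ) e => β * J e) ∘ fun J => cpl p J (n + 1)) =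
        (lw (μ.map fun x => β * x) b n).prod (lw (μ.map fun x => β * x) b n) := by
      rw [← Measure.map_map hΨm (hb'.comp m1), ← Measure.map_map hb' m1, m2]
      have h4 : P (μ.map fun x => β * x) b (n + 1) =
          (P μ b (n + 1)).map fun (J : Edge b (n + 1) → ℝ) e => β * J e := by
        unfold P
        rw [Measure.pi_map_pi fun _ => hmβ.aemeasurable]
      rw [← h4]
      exact m3 (p n).1
    have e4 : ∀ J : EdgeInf b p → ℝ,
        gp (own p (fun e => β * J e) n) (sib p (fun e => β * J e) n) =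
        (fun q : ℝ × ℝ => gp q.1 q.2) ((Ψ ∘ (fun (J : Edge b (n + 1) → ℝ) e => β * J e) ∘
          fun J => cpl p J (n + 1)) J) := fun J => congrFun e1 J
    have e5 : ∀ J : EdgeInf b p → ℝ,
        ENNReal.ofReal (gp (own p (fun e => β * J e) n) (sib p (fun e => β * J e) n)) =
        (fun q : ℝ × ℝ => ENNReal.ofReal (gp q.1 q.2))
          ((Ψ ∘ (fun (J : Edge b (n + 1) → ℝ) e => β * J e) ∘
          fun J => cpl p J (n + 1)) J) := fun J => by rw [e4 J]
    rw [lintegral_congr e5, ← lintegral_map meas_gp.ennreal_ofReal e2, e3, hg]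
    have : IsProbabilityMeasure (lw (μ.map fun x => β * x) b n) :=
      Pool.Agent.N80.EA.lw_prob _ b n
    rw [ofReal_integral_eq_lintegral_ofReal (int_gp _)
      (Eventually.of_forall fun q => gp_nonneg _ _)]
  have htot : ∫⁻ J, ∑' n, ENNReal.ofReal
      (gp (own p (fun e => β * J e) n) (sib p (fun e => β * J e) n))
        ∂(Measure.infinitePi fun _ : EdgeInf b p => μ) ≠ ∞ := by
    rw [lintegral_tsum fun n => (hlaw n).1.ennreal_ofReal.aemeasurable]
    simp_rw [fun n => (hlaw n).2]
    exact hsum.tsum_ofReal_ne_top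
  have hae := ae_lt_top' (AEMeasurable.tsum
    fun n => (hlaw n).1.ennreal_ofReal.aemeasurable) htot
  filter_upwards [hae] with J hJ
  have h5 := ENNReal.tendsto_atTop_zero_of_tsum_ne_top hJ.ne
  have h6 := (ENNReal.tendsto_toReal ENNReal.zero_ne_top).comp h5
  refine h6.congr fun n => ?_
  simp only [Function.comp_apply]
  exact ENNReal.toReal_ofReal (gp_nonneg _ _)

end Pool.Agent.N225.EA
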