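import Pool.Agent.N979.CP.Stm4
import Pool.Agent.N526.CP.CAPS

/-!
# Project FB (helper979): numerics for `S^2`, constant `0.82` (helper225)
-/

set_option autoImplicit false

open MeasureTheory Metric Set Filter Topology

namespace Pool.Agent.N225.FBLO2

open Pool.Agent.H241R3.FV Pool.Agent.N526.CP Pool.Agent.N979.CP

/-! ### the integral -/

theorem hasDeriv (c w : ℝ) (hc0 : 0 < c) (hc1 : c < 1) (hw0 : 0 < w) (hw1 : w < 1) :
    HasDerivAt (fun w => (1 - c) * Real.arcsin w + c * Real.arctan ((1 - c) * w * √(1 - w ^ 2) /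
      (1 - (1 - c) * w ^ 2)))
      ((1 - c ^ 2) * (√(1 - w ^ 2) / (1 - (1 - c ^ 2) * w ^ 2))) w := by
  have hr : 0 < 1 - w ^ 2 := by nlinarith
  have hD : 0 < 1 - (1 - c) * w ^ 2 := by nlinarith [sq_nonneg w, mul_pos hc0 (sq_pos_of_pos hw0)]
  have hE : 0 < 1 - (1 - c ^ 2) * w ^ 2 := by
    nlinarith [sq_nonneg w, mul_pos (sq_pos_of_pos hc0) (sq_pos_of_pos hw0)]
  have h1 : HasDerivAt Real.arcsin (1 / √(1 - w ^ 2)) w :=
    Real.hasDerivAt_arcsin (by linarith) (by linarith)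
  have h2 : HasDerivAt (fun w : ℝ => 1 - w ^ 2) (-(2 * w)) w := by
    simpa using ((hasDerivAt_pow 2 w).const_sub 1)
  have h3 : HasDerivAt (fun w : ℝ => √(1 - w ^ 2)) (-(2 * w) / (2 * √(1 - w ^ 2))) w :=
    h2.sqrt hr.ne'
  have h4 : HasDerivAt (fun w : ℝ => (1 - c) * w) (1 - c) w := by
    simpa using (hasDerivAt_id w).const_mul (1 - c)
  have h5 := h4.mul h3
  have h6 : HasDerivAt (fun w : ℝ => 1 - (1 - c) * w ^ 2) (-((1 - c) * (2 * w))) w := by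
    simpa using (((hasDerivAt_pow 2 w).const_mul (1 - c)).const_sub 1)
  have h7 := h5.div h6 hD.ne'
  have h8 := (h1.const_mul (1 - c)).add (h7.arctan.const_mul c)
  refine h8.congr_deriv ?_
  simp only [Pi.mul_apply, Pi.div_apply]
  set r := √(1 - w ^ 2) with hrdef
  have hr0 : 0 < r := Real.sqrt_pos.2 hr
  have hr2 : r ^ 2 = 1 - w ^ 2 := Real.sq_sqrt hr.le
  set D := 1 - (1 - c) * w ^ 2 with hDdef
  have k1 : 1 + ((1 - c) * w * r / D) ^ 2 = (1 - (1 - c ^ 2) * w ^ 2) / D ^ 2 := by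
    field_simp
    rw [hDdef]
    linear_combination ((1 - c) ^ 2 * w ^ 2) * hr2
  have k2 : (((1 - c) * r + (1 - c) * w * (-(2 * w) / (2 * r))) * D -
      (1 - c) * w * r * -((1 - c) * (2 * w))) / D ^ 2 =
      (1 - c) * (1 - (1 + c) * w ^ 2) / (r * D ^ 2) := by
    field_simp
    rw [hDdef]
    linear_combination ((1 - c) * (1 + (1 - c) * w ^ 2)) * hr2
  rw [k1, k2]
  have hDne := hD.ne'
  have hEne := hE.ne'
  have hrne := hr0.ne'
  field_simp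
  linear_combination (-(1 - c) * (1 + c)) * hr2

theorem integral_I (c : ℝ) (hc0 : 0 < c) (hc1 : c < 1) :
    (1 - c ^ 2) * ∫ w in (0 : ℝ)..1, √(1 - w ^ 2) / (1 - (1 - c ^ 2) * w ^ 2) =
      (1 - c) * (Real.pi / 2) := by
  have hE : ∀ w ∈ Icc (0 : ℝ) 1, 0 < 1 - (1 - c ^ 2) * w ^ 2 := by
    intro w hw
    have h1 : w ^ 2 ≤ 1 := by nlinarith [hw.1, hw.2]
    have h2 : 0 < c ^ 2 := by positivity
    have h3 : c ^ 2 < 1 := by nlinarith
    nlinarith [mul_nonneg (sub_nonneg.2 h3.le) (sub_nonneg.2 h1)]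
  have hD : ∀ w ∈ Icc (0 : ℝ) 1, 0 < 1 - (1 - c) * w ^ 2 := by
    intro w hw
    have h1 : w ^ 2 ≤ 1 := by nlinarith [hw.1, hw.2]
    nlinarith [mul_nonneg (sub_nonneg.2 hc1.le) (sub_nonneg.2 h1)]
  have hcont : ContinuousOn (fun w => (1 - c) * Real.arcsin w + c * Real.arctan
      ((1 - c) * w * √(1 - w ^ 2) / (1 - (1 - c) * w ^ 2))) (Icc (0 : ℝ) 1) := by
    refine ContinuousOn.add ?_ ?_
    · exact (continuous_const.mul Real.continuous_arcsin).continuousOn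
    · refine ContinuousOn.mul continuousOn_const
        (Real.continuous_arctan.comp_continuousOn ?_)
      refine ContinuousOn.div ?_ ?_ fun w hw => (hD w hw).ne'
      · exact (by fun_prop : Continuous fun w : ℝ => (1 - c) * w * √(1 - w ^ 2)).continuousOn
      · exact (by fun_prop : Continuous fun w : ℝ => 1 - (1 - c) * w ^ 2).continuousOn
  have hint : IntervalIntegrable
      (fun w : ℝ => (1 - c ^ 2) * (√(1 - w ^ 2) / (1 - (1 - c ^ 2) * w ^ 2))) volume 0 1 := by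
    apply ContinuousOn.intervalIntegrable
    rw [uIcc_of_le zero_le_one]
    refine ContinuousOn.mul continuousOn_const (ContinuousOn.div ?_ ?_ fun w hw => (hE w hw).ne')
    · exact (by fun_prop : Continuous fun w : ℝ => √(1 - w ^ 2)).continuousOn
    · exact (by fun_prop : Continuous fun w : ℝ => 1 - (1 - c ^ 2) * w ^ 2).continuousOn
  have h := intervalIntegral.integral_eq_sub_of_hasDerivAt_of_le zero_le_one hcont
    (fun w hw => hasDeriv c w hc0 hc1 hw.1 hw.2) hint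
  rw [← intervalIntegral.integral_const_mul, h]
  simp [Real.arcsin_one]

/-- the integrand for `t < 1` and for `t = 1` -/
theorem pointwise (s t w : ℝ) (hs0 : 0 < s) (hs1 : s < 1) (ht0 : 0 < t) (ht1 : t < 1)
    (hw0 : 0 ≤ w) (hw1 : w ≤ 1) :
    √(1 - w ^ 2) / (1 - s ^ 2 * w ^ 2) - √(1 - t ^ 2) / (1 - s ^ 2) ≤
      (1 - w ^ 2) * ((√(1 - (t * w) ^ 2))⁻¹ * ((√(1 - (s * w) ^ 2))⁻¹) ^ 2) := by
  have hw2 : w ^ 2 ≤ 1 := by nlinarith
  have hs2 : s ^ 2 < 1 := by nlinarith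
  have ht2 : t ^ 2 < 1 := by nlinarith
  have hsw : s ^ 2 * w ^ 2 ≤ s ^ 2 := by nlinarith [sq_nonneg s]
  have htw : t ^ 2 * w ^ 2 ≤ t ^ 2 := by nlinarith [sq_nonneg t]
  have hS : 0 < 1 - s ^ 2 * w ^ 2 := by linarith
  have hQ : 0 < 1 - t ^ 2 * w ^ 2 := by linarith
  have e1 : ((√(1 - (s * w) ^ 2))⁻¹) ^ 2 = (1 - s ^ 2 * w ^ 2)⁻¹ := by
    rw [inv_pow, mul_pow, Real.sq_sqrt hS.le]
  rw [e1, mul_pow t w]
  set r := √(1 - w ^ 2) with hr
  set ε := √(1 - t ^ 2) with hε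
  set q := √(1 - t ^ 2 * w ^ 2) with hq
  have hr0 : 0 ≤ r := Real.sqrt_nonneg _
  have hε0 : 0 ≤ ε := Real.sqrt_nonneg _
  have hq0 : 0 < q := Real.sqrt_pos.2 hQ
  have hr2 : r ^ 2 = 1 - w ^ 2 := Real.sq_sqrt (by linarith)
  have hε2 : ε ^ 2 = 1 - t ^ 2 := Real.sq_sqrt (by linarith)
  have hq2 : q ^ 2 = 1 - t ^ 2 * w ^ 2 := Real.sq_sqrt hQ.le
  have hqle : q ≤ r + ε := by
    have h1 : q ^ 2 ≤ (r + ε) ^ 2 := by
      have h2 : (1 - t ^ 2) * w ^ 2 ≤ 1 - t ^ 2 := by nlinarith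
      nlinarith [mul_nonneg hr0 hε0]
    exact le_of_sq_le_sq h1 (by positivity)
  have h2 : (r - ε) ≤ r ^ 2 / q := by
    rw [le_div_iff₀ hq0]
    rcases le_total r ε with h | h
    · nlinarith [mul_nonneg (sub_nonneg.2 h) hq0.le, sq_nonneg r]
    · nlinarith [mul_nonneg (sub_nonneg.2 h) (sub_nonneg.2 hqle), sq_nonneg ε]
  have h3 : ε / (1 - s ^ 2 * w ^ 2) ≤ ε / (1 - s ^ 2) :=
    div_le_div_of_nonneg_left hε0 (by linarith) (by linarith)
  have h4 : (r - ε) / (1 - s ^ 2 * w ^ 2) ≤ r ^ 2 / q / (1 - s ^ 2 * w ^ 2) :=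
    div_le_div_of_nonneg_right h2 hS.le
  rw [← hr2]
  have e2 : r ^ 2 * (q⁻¹ * (1 - s ^ 2 * w ^ 2)⁻¹) = r ^ 2 / q / (1 - s ^ 2 * w ^ 2) := by
    field_simp
  rw [e2]
  rw [sub_div] at h4
  linarith

theorem JJ_ge (h2 : S_JJ2) (s c t : ℝ) (hs0 : 0 < s) (hs1 : s < 1) (hc0 : 0 < c) (hc1 : c < 1)
    (hsc : s ^ 2 = 1 - c ^ 2) (ht0 : 0 < t) (ht1 : t < 1) :
    2 * Real.pi * ((1 - c) * (Real.pi / 2) / s ^ 2 - √(1 - t ^ 2) / (1 - s ^ 2)) ≤ JJ 2 s t := by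
  rw [h2 s t hs0 hs1 ht0 ht1]
  refine mul_le_mul_of_nonneg_left ?_ (by positivity)
  have hI := integral_I c hc0 hc1
  rw [← hsc] at hI
  have e1 : (1 - c) * (Real.pi / 2) / s ^ 2 =
      ∫ w in (0 : ℝ)..1, √(1 - w ^ 2) / (1 - s ^ 2 * w ^ 2) := by
    rw [← hI]
    field_simp
  have hs2 : s ^ 2 < 1 := by nlinarith
  have ht2 : t ^ 2 < 1 := by nlinarith
  have hS : ∀ w ∈ Icc (0 : ℝ) 1, 0 < 1 - s ^ 2 * w ^ 2 := by
    intro w hw
    have : w ^ 2 ≤ 1 := by nlinarith [hw.1, hw.2]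
    nlinarith [sq_nonneg s]
  have hQ : ∀ w ∈ Icc (0 : ℝ) 1, 0 < 1 - t ^ 2 * w ^ 2 := by
    intro w hw
    have : w ^ 2 ≤ 1 := by nlinarith [hw.1, hw.2]
    nlinarith [sq_nonneg t]
  have i1 : IntervalIntegrable (fun w : ℝ => √(1 - w ^ 2) / (1 - s ^ 2 * w ^ 2)) volume 0 1 := by
    apply ContinuousOn.intervalIntegrable
    rw [uIcc_of_le zero_le_one]
    refine ContinuousOn.div ?_ ?_ fun w hw => (hS w hw).ne'
    · exact (by fun_prop : Continuous fun w : ℝ => √(1 - w ^ 2)).continuousOn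
    · exact (by fun_prop : Continuous fun w : ℝ => 1 - s ^ 2 * w ^ 2).continuousOn
  have i2 : IntervalIntegrable (fun w : ℝ => (1 - w ^ 2) * ((√(1 - (t * w) ^ 2))⁻¹ *
      ((√(1 - (s * w) ^ 2))⁻¹) ^ 2)) volume 0 1 := by
    apply ContinuousOn.intervalIntegrable
    rw [uIcc_of_le zero_le_one]
    refine ContinuousOn.mul (by fun_prop : Continuous fun w : ℝ => 1 - w ^ 2).continuousOn
      (ContinuousOn.mul (ContinuousOn.inv₀ ?_ fun w hw => ?_)
        (ContinuousOn.pow (ContinuousOn.inv₀ ?_ fun w hw => ?_) 2))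
    · exact (by fun_prop : Continuous fun w : ℝ => √(1 - (t * w) ^ 2)).continuousOn
    · rw [mul_pow]
      exact (Real.sqrt_pos.2 (hQ w hw)).ne'
    · exact (by fun_prop : Continuous fun w : ℝ => √(1 - (s * w) ^ 2)).continuousOn
    · rw [mul_pow]
      exact (Real.sqrt_pos.2 (hS w hw)).ne'
  have e2 : ∫ w in (0 : ℝ)..1, (√(1 - w ^ 2) / (1 - s ^ 2 * w ^ 2) - √(1 - t ^ 2) / (1 - s ^ 2)) =
      (1 - c) * (Real.pi / 2) / s ^ 2 - √(1 - t ^ 2) / (1 - s ^ 2) := by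
    rw [intervalIntegral.integral_sub i1 intervalIntegrable_const, ← e1]
    simp
  rw [← e2]
  exact intervalIntegral.integral_mono_on zero_le_one (i1.sub intervalIntegrable_const) i2
    fun w hw => pointwise s t w hs0 hs1 ht0 ht1 hw.1 hw.2

/-! ### the volume of the cap -/

theorem sig3 : (sig 3).real univ = 4 * Real.pi := by
  unfold sig
  rw [Measure.toSphere_real_apply_univ]
  have h1 : (volume : Measure (E 3)).real (ball 0 1) = Real.pi * 4 / 3 := by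
    rw [Measure.real, EuclideanSpace.volume_ball_fin_three]
    simp
    positivity
  have h2 : Module.finrank ℝ (E 3) = 3 := by simp
  rw [h1, h2]
  push_cast
  ring

theorem capv_eq (s : ℝ) (hs0 : 0 < s) (hs1 : s < 1) :
    capv 2 s = 2 * Real.pi * (Real.arcsin s - s * √(1 - s ^ 2)) := by
  have hρ0 : 0 < Real.arcsin s := Real.arcsin_pos.2 hs0
  have hρ1 : Real.arcsin s < Real.pi / 2 := Real.arcsin_lt_pi_div_two.2 hs1
  have h1 := CAPS.t 2 (by norm_num) (Real.arcsin s) hρ0 hρ1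
  rw [Real.sin_arcsin (by linarith) hs1.le, integral_sin_sq] at h1
  have h2 : (sig (2 + 1)).real univ = 4 * Real.pi := sig3
  rw [h1, h2, Real.sin_arcsin (by linarith) hs1.le, Real.cos_arcsin]
  simp
  ring

/-! ### the numbers -/

theorem rho_bounds : Real.pi / 2 - 4950 / 10000 ≤ Real.arcsin (22 / 25) ∧
    Real.arcsin (22 / 25) ≤ Real.pi / 2 - 4949 / 10000 := by
  have hpi := Real.pi_gt_three
  have hcs : ∀ x : ℝ, Real.cos (2 * x) = 1 - 2 * Real.sin x ^ 2 := by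
    intro x
    rw [Real.cos_two_mul, Real.cos_sq']
    ring
  constructor
  · rw [Real.le_arcsin_iff_sin_le ⟨by linarith, by linarith⟩ ⟨by norm_num, by norm_num⟩,
      Real.sin_pi_div_two_sub]
    have h1 := Real.sin_gt_sub_cube (x := 2475 / 10000) (by norm_num)
    have h2 := hcs (2475 / 10000)
    rw [show (2 : ℝ) * (2475 / 10000) = 4950 / 10000 by norm_num] at h2
    rw [h2]
    have h3 : (244973 / 1000000 : ℝ) ≤ Real.sin (2475 / 10000) :=
      le_trans (by norm_num) h1.le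
    nlinarith
  · rw [Real.arcsin_le_iff_le_sin ⟨by norm_num, by norm_num⟩ ⟨by linarith, by linarith⟩,
      Real.sin_pi_div_two_sub]
    have h1 := Real.sin_bound (x := 24745 / 100000) (by norm_num [abs_le])
    rw [abs_le, abs_of_pos (by norm_num : (0 : ℝ) < 24745 / 100000)] at h1
    have h2 := hcs (24745 / 100000)
    rw [show (2 : ℝ) * (24745 / 100000) = 4949 / 10000 by norm_num] at h2
    rw [h2]
    have h3 : Real.sin (24745 / 100000) ≤ (244935 / 1000000 : ℝ) := by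
      have := h1.2
      norm_num at this ⊢
      linarith
    have h4 : 0 < Real.sin (24745 / 100000) :=
      Real.sin_pos_of_pos_of_lt_pi (by norm_num) (by linarith)
    nlinarith

theorem c_bounds : 47497 / 100000 < √(1 - (22 / 25 : ℝ) ^ 2) ∧
    √(1 - (22 / 25 : ℝ) ^ 2) < 47498 / 100000 := by
  constructor
  · rw [Real.lt_sqrt (by norm_num)]
    norm_num
  · rw [Real.sqrt_lt' (by norm_num)]
    norm_num

/-- **FB/LO2** -/
theorem main (h1 : S_ZF2) (h2 : S_JJ2) : S_LO2 := by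
  obtain ⟨hc1, hc2⟩ := c_bounds
  obtain ⟨hρ1, hρ2⟩ := rho_bounds
  obtain ⟨s, hs⟩ : ∃ s : ℝ, s = 22 / 25 := ⟨_, rfl⟩
  rw [← hs] at hc1 hc2 hρ1 hρ2
  obtain ⟨c, hc⟩ : ∃ c : ℝ, c = √(1 - s ^ 2) := ⟨_, rfl⟩
  rw [← hc] at hc1 hc2
  obtain ⟨ρ, hρ⟩ : ∃ ρ : ℝ, ρ = Real.arcsin s := ⟨_, rfl⟩
  rw [← hρ] at hρ1 hρ2
  have hpi1 := Real.pi_gt_d6
  have hpi2 := Real.pi_lt_d6
  have hs0 : 0 < s := by rw [hs]; norm_num
  have hs1 : s < 1 := by rw [hs]; norm_num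
  have hsc : s ^ 2 = 1 - c ^ 2 := by
    rw [hc, Real.sq_sqrt (by rw [hs]; norm_num)]
    ring
  obtain ⟨Z, hZdef⟩ : ∃ Z : ℝ, Z = ρ / 2 - (ρ - s * c) / (4 * s ^ 2) := ⟨_, rfl⟩
  have hZ : zf 2 s = Z := by
    rw [h1 s hs0 hs1.le, hZdef, hρ, hc]
  have hZe : Z = ρ * (1 / 2 - 625 / 1936) + 22 / 25 * c * (625 / 1936) := by
    rw [hZdef, hs]
    ring
  have hZ1 : 325530 / 1000000 < Z := by rw [hZe]; linarith
  have hZ2 : Z < 325560 / 1000000 := by rw [hZe]; linarith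
  have hZ0 : 0 < Z := by linarith
  obtain ⟨zt, hzt⟩ : ∃ zt : ℝ → ℝ, zt = fun t =>
    Real.arcsin t / 2 - (Real.arcsin t - t * √(1 - t ^ 2)) / (4 * t ^ 2) := ⟨_, rfl⟩
  have hzt1 : zt 1 = Real.pi / 8 := by
    rw [hzt]
    simp
    ring
  have hcz : ContinuousAt zt 1 := by
    rw [hzt]
    refine ContinuousAt.sub (Real.continuous_arcsin.continuousAt.div_const 2)
      (ContinuousAt.div ?_ ?_ (by norm_num))
    · exact (Real.continuous_arcsin.sub
        (by fun_prop : Continuous fun t : ℝ => t * √(1 - t ^ 2))).continuousAt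
    · exact (by fun_prop : Continuous fun t : ℝ => 4 * t ^ 2).continuousAt
  obtain ⟨Rt, hRt⟩ : ∃ Rt : ℝ → ℝ, Rt = fun t => zt t / Z := ⟨_, rfl⟩
  have hcR : ContinuousAt Rt 1 := by
    rw [hRt]
    exact hcz.div_const Z
  have hR1 : Rt 1 = Real.pi / 8 / Z := by rw [hRt, ← hzt1]
  have hR1a : 12062 / 10000 < Rt 1 := by
    rw [hR1, lt_div_iff₀ hZ0]
    linarith
  have hR1b : Rt 1 < 12064 / 10000 := by
    rw [hR1, div_lt_iff₀ hZ0]
    linarith
  obtain ⟨G, hG⟩ : ∃ G : ℝ → ℝ, G = fun t => Rt t ^ 3 * (3 * s ^ 2 * (t / Rt t) *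
    (2 * Real.pi * ((1 - c) * (Real.pi / 2) / s ^ 2 - √(1 - t ^ 2) / (1 - s ^ 2))) -
      2 * (2 * Real.pi * (ρ - s * c))) := ⟨_, rfl⟩
  have hcG : ContinuousAt G 1 := by
    rw [hG]
    refine (hcR.pow 3).mul (((continuousAt_const.mul (continuousAt_id.div hcR (by
      intro h; rw [h] at hR1a; linarith))).mul ?_).sub continuousAt_const)
    exact (by fun_prop : Continuous fun t : ℝ => (2 * Real.pi *
      ((1 - c) * (Real.pi / 2) / s ^ 2 - √(1 - t ^ 2) / (1 - s ^ 2)))).continuousAt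
  have hG1 : 41 / 50 * Real.pi ^ 2 < G 1 := by
    have e1 : G 1 = Real.pi * (3 * Real.pi * Rt 1 ^ 2 * (1 - c) -
        4 * Rt 1 ^ 3 * (ρ - s * c)) := by
      have hne : Rt 1 ≠ 0 := by intro h; rw [h] at hR1a; linarith
      rw [hG]
      simp only [one_pow, sub_self, Real.sqrt_zero, zero_div, sub_zero]
      field_simp
      ring
    rw [e1]
    have e2 : 41 / 50 * Real.pi < 3 * Real.pi * Rt 1 ^ 2 * (1 - c) -
        4 * Rt 1 ^ 3 * (ρ - s * c) := by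
      have q1 : (12062 / 10000 : ℝ) ^ 2 ≤ Rt 1 ^ 2 := pow_le_pow_left₀ (by norm_num) hR1a.le 2
      have q2 : Rt 1 ^ 3 ≤ (12064 / 10000 : ℝ) ^ 3 :=
        pow_le_pow_left₀ (by linarith) hR1b.le 3
      have q3 : ρ - s * c ≤ 65793 / 100000 := by
        rw [hs]
        linarith
      have q4 : (0 : ℝ) ≤ ρ - s * c := by
        rw [hs]
        linarith
      have q5 : 4 * Rt 1 ^ 3 * (ρ - s * c) ≤ 4 * (12064 / 10000 : ℝ) ^ 3 * (65793 / 100000) :=
        mul_le_mul (by linarith) q3 q4 (by positivity)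
      have q6 : (12062 / 10000 : ℝ) ^ 2 * (52502 / 100000) ≤ Rt 1 ^ 2 * (1 - c) :=
        mul_le_mul q1 (by linarith) (by norm_num) (by positivity)
      have q7 : 3 * Real.pi * ((12062 / 10000 : ℝ) ^ 2 * (52502 / 100000)) ≤
          3 * Real.pi * (Rt 1 ^ 2 * (1 - c)) :=
        mul_le_mul_of_nonneg_left q6 (by positivity)
      have q8 : 3 * Real.pi * Rt 1 ^ 2 * (1 - c) = 3 * Real.pi * (Rt 1 ^ 2 * (1 - c)) := by ring
      rw [q8]
      norm_num at q5 q7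
      linarith
    nlinarith [Real.pi_pos]
  have hev : ∀ᶠ t in 𝓝[<] (1 : ℝ), 41 / 50 * Real.pi ^ 2 < G t ∧ 0 < Rt t ∧ 0 < t ∧ t < 1 := by
    have a1 : ∀ᶠ t in 𝓝 (1 : ℝ), 41 / 50 * Real.pi ^ 2 < G t := hcG.eventually_const_lt hG1
    have a2 : ∀ᶠ t in 𝓝 (1 : ℝ), 0 < Rt t := hcR.eventually_const_lt (by linarith)
    have a3 : ∀ᶠ t in 𝓝 (1 : ℝ), 0 < t := eventually_gt_nhds one_pos
    filter_upwards [a1.filter_mono nhdsWithin_le_nhds, a2.filter_mono nhdsWithin_le_nhds,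
      a3.filter_mono nhdsWithin_le_nhds, self_mem_nhdsWithin] with t b1 b2 b3 b4
    exact ⟨b1, b2, b3, b4⟩
  obtain ⟨t, ht1, ht2, ht3, ht4⟩ := hev.exists
  refine ⟨s, t, Rt t, hs.le, ⟨hs0, hs1, ht3, ht4, ht2, ?_⟩, ht1.le.trans ?_⟩
  · rw [hZ, h1 t ht3 ht4.le, hRt, hzt]
    field_simp
  · have e1 := JJ_ge h2 s c t hs0 hs1 (by linarith) (by linarith) hsc ht3 ht4
    have e2 := capv_eq s hs0 hs1
    rw [← hρ, ← hc] at e2
    unfold low
    rw [e2, hG]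
    have e3 : 0 < t / Rt t := div_pos ht3 ht2
    have e4 : 3 * s ^ 2 * (t / Rt t) *
        (2 * Real.pi * ((1 - c) * (Real.pi / 2) / s ^ 2 - √(1 - t ^ 2) / (1 - s ^ 2))) ≤
        3 * s ^ 2 * (t / Rt t) * JJ 2 s t := mul_le_mul_of_nonneg_left e1 (by positivity)
    have e5 : ((2 : ℕ) : ℝ) = 2 := by norm_num
    rw [e5]
    norm_num only
    refine mul_le_mul_of_nonneg_left ?_ (by positivity)
    linarith

end Pool.Agent.N225.FBLO2
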