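import Pool.Agent.N979.P1.Stm
import Pool.Agent.N979.CP.MAINb
import Pool.Agent.N526.CP.SPH
import Pool.Agent.N526.CP.FAM
import Pool.Agent.N526.CP.EXT
import Pool.Agent.N526.CP.REF
import Pool.Agent.N526.CP.FUB
import Pool.Agent.N526.CP.RAP
import Pool.Agent.N526.CP.CHA
import Pool.Agent.N526.CP.LOC
import Pool.Agent.N526.CP.VAN
import Pool.Agent.N526.CP.TEL
import Pool.Agent.N526.CP.BAL
import Pool.Agent.N526.CP.NULag
import Pool.Agent.N526.CP.STO

/-!
# P1/MAINP (helper225 for helper979): assembly of the general theorem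
Adapted from `Pool/Agent/N979/CP/MAINb.lean` (helper73) and `Pool/Agent/N252/FB_MAING0.lean` (helper252).
-/

set_option autoImplicit false

open MeasureTheory Metric Set Filter Topology InnerProductGeometry Matrix

namespace Pool.Agent.N225.P1MAINP

open Pool.Agent.H241R3.FV Pool.Agent.N526.CP Pool.Agent.N979.P1 Pool.Agent.N979.CP

theorem sph : S_SPH := SPH.t
theorem cha : S_CHA := CHA.t
theorem nul : S_NUL := NUL.t
theorem van : S_VAN := VAN.t cha (LOC.t nul cha)
theorem sto : S_STO := STO.t cha (TEL.t cha van) (BAL.t nul)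
theorem fub : S_FUB := FUB.t RAP.t
theorem fam : S_FAM := FAM.t sph (EXT.t REF.t)

theorem cap_le {n : ℕ} (ρ : ℝ) (x y : Sph n) :
    capDist ρ x y ≤ angle (x : E n) (y : E n) := by
  have hx : ‖(x : E n)‖ = 1 := norm_eq_of_mem_sphere x
  have hy : ‖(y : E n)‖ = 1 := norm_eq_of_mem_sphere y
  unfold capDist angle
  rw [hx, hy, one_mul, div_one]
  apply Real.arccos_le_arccos
  have h1 : inner ℝ (x : E n) (y : E n) ≤ 1 := by
    have := real_inner_le_norm (x : E n) (y : E n)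
    rwa [hx, hy, one_mul] at this
  have h2 := Real.sin_sq_add_cos_sq ρ
  have h3 : 0 ≤ Real.cos ρ ^ 2 := sq_nonneg _
  nlinarith

theorem smul_vec (c a b : ℝ) : c • (!₂[a, b] : E 2) = !₂[c * a, c * b] := by
  ext i
  fin_cases i <;> simp

theorem main (h1 : S_PTWP) (h2 : S_LEV) (h3 : S_LIPP) (h4 : S_VALP) : S_MAINP := by
  intro k T hk M _ _ S hang s hs0 hs1 c₀ hc₀
  by_cases hvol : S.vol = ⊤
  · rw [hvol]
    refine ⟨(max c₀ 0 + 1) / 2, ?_, ?_, ?_, le_top⟩
    · have := le_max_left c₀ 0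
      linarith
    · have := le_max_right c₀ 0
      linarith
    · have : max c₀ 0 < 1 := max_lt hc₀ one_pos
      linarith
  have hvol' : S.vol < ⊤ := lt_top_iff_ne_top.2 hvol
  -- the family
  have hsin : Real.sin (Real.arcsin s) = s := Real.sin_arcsin (by linarith) hs1.le
  obtain ⟨g, hg⟩ := fam 1 le_rfl M S (Real.arcsin s) (Real.arcsin_pos.2 hs0)
    (Real.arcsin_lt_pi_div_two.2 hs1) (fun x y => (cap_le _ x y).trans (hang x y))
  rw [hsin] at hg
  obtain ⟨c, hc1, hc2, hc3, hlev⟩ := h2 M S s g hs0 hs1 hg T hk.pos c₀ hc₀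
  refine ⟨c, hc1, hc2, hc3, ?_⟩
  -- the function
  obtain ⟨K₀, hK₀⟩ := hk.lip
  have hlip : ∃ K : NNReal, LipschitzWith K fun z : E 2 => k (c • z) :=
    ⟨_, hK₀.comp (lipschitzWith_smul c)⟩
  have hodd : ∀ z : E 2, (fun z : E 2 => k (c • z)) !₂[z 0, -(z 1)] =
      -(fun z : E 2 => k (c • z)) z := by
    intro z
    have := hk.odd (c • z)
    change k (c • !₂[z 0, -(z 1)]) = -k (c • z)
    rw [smul_vec, ← this]
    congr 1
    ext i
    fin_cases i <;> simp
  obtain ⟨K, hK1, hK2, hK3, hK4⟩ := h3 (fun z => k (c • z)) hlip M S s g hs0 hs1 hg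
  obtain ⟨hprob, -, -⟩ := sph 1 le_rfl
  have := hprob
  -- Stokes
  have hst : ∀ θ, jint S (Ph (fun z => k (c • z)) g θ) =
      ∫ y in ball (0 : E 2) 1, (fderiv ℝ (Ph0 (fun z => k (c • z)) s θ) y).det := fun θ =>
    sto 2 (by omega) M S hvol' K (Ph (fun z => k (c • z)) g θ) (Ph0 (fun z => k (c • z)) s θ)
      (hK1 θ) (hK2 θ) (fun x => hK3 θ x)
  -- Fubini
  obtain ⟨-, hF2, hF3⟩ := fub 1 le_rfl M S hvol' K (Ph (fun z => k (c • z)) g) hK1 hK4 hprob
  have hval := h4 (fun z => k (c • z)) hlip hodd s hs0 hs1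
  have e1 : Vk k s c = ∑ i, ∫ p in (S.chart i).D,
      -(∫ θ, (fderiv ℝ (Ph (fun z => k (c • z)) g θ ∘ (S.chart i).map) p).det ∂(sg 2)) := by
    have e2 : Vk k s c = -∫ θ, jint S (Ph (fun z => k (c • z)) g θ) ∂(sg 2) := by
      simp only [hst]
      rw [hval, neg_neg]
      unfold Vk
      congr 1
      refine intervalIntegral.integral_congr fun x _ => ?_
      simp only [smul_vec, mul_assoc]
    rw [e2]
    have e3 : ∫ θ, jint S (Ph (fun z => k (c • z)) g θ) ∂(sg 2) =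
        ∑ i, ∫ p in (S.chart i).D,
          ∫ θ, (fderiv ℝ (Ph (fun z => k (c • z)) g θ ∘ (S.chart i).map) p).det ∂(sg 2) := hF3
    rw [e3, ← Finset.sum_neg_distrib]
    exact Finset.sum_congr rfl fun i _ => (integral_neg _).symm
  rw [e1]
  refine (MAINb.ofReal_sum_le _ _).trans ?_
  unfold OFill.vol
  refine Finset.sum_le_sum fun i _ => ?_
  refine (MAINb.ofReal_integral_le (hF2 i).neg).trans ?_
  refine lintegral_mono_ae ?_
  have h2' := ae_restrict_of_ae (s := (S.chart i).D)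
    (h1 k T hk M S s g hs0 hs1 hg c hc2 hc3 i (hlev i))
  filter_upwards [h2', ae_restrict_mem (S.chart i).meas_D] with p hp hpD
  exact ENNReal.ofReal_le_ofReal ((neg_le_abs _).trans (hp ((S.chart i).D_sub hpD)))

end Pool.Agent.N225.P1MAINP
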