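import Pool.Agent.N585.PA.Defs

/-!
# One agent: small models suffice (project PA of helper585, part 7)
-/

set_option autoImplicit false

namespace Pool.Agent.N225.PA7

open Pool.Agent.N585.PA

section

variable {A W : Type} [Unique A] {m : ℕ} (M : Model A W)

open Classical in
/-- the valuation of a world -/
noncomputable def val (m : ℕ) (M : Model A W) (u : W) : Fin m → Bool :=
  fun i => decide (M.V i u)

variable (T : Finset (Fin m → Bool)) (c : Set W)

/-- corresponding sets of worlds -/
def Corr (G : (u : W) → u ∈ c → ↥T) (S : Set W) (S' : Set ↥T) : Prop :=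
  ∀ (u : W) (hu : u ∈ c), u ∈ S ↔ G u hu ∈ S'

variable {M T c}

lemma step_mem {X : Type} {s : Set X → X → Prop} {S : Set X} {v : X} :
    v ∈ step s S ↔ v ∈ S ∧ s S v := Iff.rfl

/-- the main induction -/
theorem key (hc : ∀ u v, u ∈ c → ((M.r default) u v ↔ v ∈ c))
    (G : (u : W) → u ∈ c → ↥T) (hG : ∀ u hu, (G u hu).1 = val m M u)
    (hsurj : ∀ x : ↥T, ∃ u hu, G u hu = x) (φ : Form A) (hφ : Below m φ) :
    ∀ (S : Set W) (S' : Set ↥T), Corr T c G S S' → ∀ (u : W) (hu : u ∈ c), u ∈ S →
      (sat M φ S u ↔ sat (canon T) φ S' (G u hu)) := by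
  induction φ with
  | atom n =>
    intro S S' hS u hu huS
    have hn : n < m := hφ
    simp only [sat, canon]
    constructor
    · intro h
      refine ⟨hn, ?_⟩
      rw [hG]
      simpa [val] using h
    · rintro ⟨h, h2⟩
      rw [hG] at h2
      simpa [val] using h2
  | neg φ ih =>
    intro S S' hS u hu huS
    simp only [sat]
    exact not_congr (ih hφ S S' hS u hu huS)
  | and φ ψ ih1 ih2 =>
    intro S S' hS u hu huS
    simp only [sat]
    exact and_congr (ih1 hφ.1 S S' hS u hu huS) (ih2 hφ.2 S S' hS u hu huS)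
  | K a φ ih =>
    intro S S' hS u hu huS
    simp only [sat]
    have ha : a = default := Subsingleton.elim _ _
    subst ha
    constructor
    · intro h x hx _
      obtain ⟨v, hv, rfl⟩ := hsurj x
      have hvS : v ∈ S := (hS v hv).2 hx
      exact (ih hφ S S' hS v hv hvS).1 (h v hvS ((hc u v hu).2 hv))
    · intro h v hvS huv
      have hv : v ∈ c := (hc u v hu).1 huv
      exact (ih hφ S S' hS v hv hvS).2 (h (G v hv) ((hS v hv).1 hvS) trivial)
  | C g φ ih =>
    intro S S' hS u hu huS
    simp only [sat]
    obtain ⟨a, hag⟩ := g.2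
    have ha : a = default := Subsingleton.elim _ _
    constructor
    · intro h x hx
      have hxS : x ∈ S' := by
        cases hx with
        | single h1 => exact h1.2.1
        | tail _ h1 => exact h1.2.1
      obtain ⟨v, hv, rfl⟩ := hsurj x
      have hvS : v ∈ S := (hS v hv).2 hxS
      refine (ih hφ S S' hS v hv hvS).1 (h v (Relation.TransGen.single ⟨huS, hvS, a, hag, ?_⟩))
      rw [ha]
      exact (hc u v hu).2 hv
    · intro h v huv
      have hv : v ∈ S ∧ v ∈ c := by
        induction huv with
        | single h1 =>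
          obtain ⟨_, h2, b, _, h3⟩ := h1
          have hb : b = default := Subsingleton.elim _ _
          rw [hb] at h3
          exact ⟨h2, (hc _ _ hu).1 h3⟩
        | tail _ h1 ih1 =>
          obtain ⟨_, h2, b, _, h3⟩ := h1
          have hb : b = default := Subsingleton.elim _ _
          rw [hb] at h3
          exact ⟨h2, (hc _ _ ih1.2).1 h3⟩
      refine (ih hφ S S' hS v hv.2 hv.1).2 (h (G v hv.2)
        (Relation.TransGen.single ⟨(hS u hu).1 huS, (hS v hv.2).1 hv.1, a, hag, trivial⟩))
  | ann φ ψ ih1 ih2 =>
    intro S S' hS u hu huS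
    simp only [sat]
    have h1 := ih1 hφ.1 S S' hS
    have hS2 : Corr T c G (step (sat M φ) S) (step (sat (canon T) φ) S') := by
      intro v hv
      rw [step_mem, step_mem]
      constructor
      · rintro ⟨h2, h3⟩
        exact ⟨(hS v hv).1 h2, (h1 v hv h2).1 h3⟩
      · rintro ⟨h2, h3⟩
        have h4 := (hS v hv).2 h2
        exact ⟨h4, (h1 v hv h4).2 h3⟩
    have h2 := ih2 hφ.2 _ _ hS2 u hu
    constructor
    · intro h h3
      have h4 := (h1 u hu huS).2 h3
      exact (h2 ⟨huS, h4⟩).1 (h h4)
    · intro h h4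
      exact (h2 ⟨huS, h4⟩).2 (h ((h1 u hu huS).1 h4))
  | star φ ψ ih1 ih2 =>
    intro S S' hS u hu huS
    simp only [sat]
    have hit : ∀ n : ℕ, Corr T c G ((step (sat M φ))^[n] S)
        ((step (sat (canon T) φ))^[n] S') := by
      intro n
      induction n with
      | zero => exact hS
      | succ n ihn =>
        rw [Function.iterate_succ_apply', Function.iterate_succ_apply']
        have h1 := ih1 hφ.1 _ _ ihn
        intro v hv
        rw [step_mem, step_mem]
        constructor
        · rintro ⟨h2, h3⟩
          exact ⟨(ihn v hv).1 h2, (h1 v hv h2).1 h3⟩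
        · rintro ⟨h2, h3⟩
          have h4 := (ihn v hv).2 h2
          exact ⟨h4, (h1 v hv h4).2 h3⟩
    constructor
    · intro h n hn
      have h1 := (hit n u hu).2 hn
      exact (ih2 hφ.2 _ _ (hit n) u hu h1).1 (h n h1)
    · intro h n hn
      have h1 := (hit n u hu).1 hn
      exact (ih2 hφ.2 _ _ (hit n) u hu hn).2 (h n h1)

end

open Classical in
/-- (PA/7) One agent: small models suffice. -/
theorem stmSmall : StmSmall := by
  intro A _ m φ hφ
  constructor
  · intro h T x
    exact h ↥T (canon T) x
  · intro h W _ M w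
    let c : Set W := {u | (M.r default) w u}
    have hcf : (val m M '' c).Finite := Set.toFinite _
    let T : Finset (Fin m → Bool) := hcf.toFinset
    have hT : ∀ u, u ∈ c → val m M u ∈ T := fun u hu =>
      hcf.mem_toFinset.2 ⟨u, hu, rfl⟩
    let G : (u : W) → u ∈ c → ↥T := fun u hu => ⟨val m M u, hT u hu⟩
    have hw : w ∈ c := (M.r default).refl w
    have hc : ∀ u v, u ∈ c → ((M.r default) u v ↔ v ∈ c) := by
      intro u v hu
      constructor
      · intro h1
        exact (M.r default).trans hu h1
      · intro h1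
        exact (M.r default).trans ((M.r default).symm hu) h1
    have hsurj : ∀ x : ↥T, ∃ u hu, G u hu = x := by
      intro x
      obtain ⟨u, hu, h1⟩ := hcf.mem_toFinset.1 x.2
      exact ⟨u, hu, Subtype.ext h1⟩
    have hS : Corr T c G Set.univ Set.univ := fun u hu => by simp
    exact (key hc G (fun u hu => rfl) hsurj φ hφ Set.univ Set.univ hS w hw trivial).2
      (h T (G w hw))

end Pool.Agent.N225.PA7
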