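import Pool.Agent.N709.UM.Stm2
import Pool.Agent.N691.UMPRD

set_option autoImplicit false

/-!
# Project UM2 (helper709), leaf PRA
-/

open Filter Topology

universe u v w

namespace Pool.Agent.N225.UM2PRA

open Pool.Agent.N709.UM Pool.Agent.N691.UM

lemma PN.nonneg {G : Type u} [Group G] {N : G → ℝ} (h : PN N) (g : G) : 0 ≤ N g := by
  have h1 := h.mul g g⁻¹
  rw [mul_inv_cancel, h.one, h.inv] at h1
  linarith

lemma PN.comp {G : Type u} [Group G] {H : Type w} [Group H] {N : H → ℝ} (h : PN N)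
    (f : G →* H) : PN fun g => N (f g) :=
  ⟨by rw [map_one, h.one], fun g => by rw [map_inv, h.inv], fun g k => by
    rw [map_mul]; exact h.mul _ _⟩

lemma summ : Summable fun n : ℕ => (1 / 2 : ℝ) ^ (n + 1) :=
  (summable_nat_add_iff 1).2 summable_geometric_two

section

variable {P : Type w} [Group P] {N : ℕ → P → ℝ}

/-- the sum of the pseudonorms -/
noncomputable def tot (N : ℕ → P → ℝ) (g : P) : ℝ := ∑' n : ℕ, (1 / 2 : ℝ) ^ (n + 1) * N n g

lemma tot_summ (hN : ∀ n, PN (N n)) (h1 : ∀ n g, N n g ≤ 1) (g : P) :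
    Summable fun n : ℕ => (1 / 2 : ℝ) ^ (n + 1) * N n g :=
  Summable.of_nonneg_of_le (fun n => mul_nonneg (by positivity) (PN.nonneg (hN n) g))
    (fun n => mul_le_of_le_one_right (by positivity) (h1 n g)) summ

lemma tot_pn (hN : ∀ n, PN (N n)) (h1 : ∀ n g, N n g ≤ 1) : PN (tot N) := by
  refine ⟨?_, fun g => ?_, fun g h => ?_⟩
  · simp only [tot, (hN _).one, mul_zero, tsum_zero]
  · simp only [tot, (hN _).inv]
  · simp only [tot]
    rw [← (tot_summ hN h1 g).tsum_add (tot_summ hN h1 h)]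
    refine (tot_summ hN h1 (g * h)).tsum_le_tsum (fun n => ?_)
      ((tot_summ hN h1 g).add (tot_summ hN h1 h))
    rw [← mul_add]
    exact mul_le_mul_of_nonneg_left ((hN n).mul g h) (by positivity)

lemma tot_cont [TopologicalSpace P] (hN : ∀ n, PN (N n)) (h1 : ∀ n g, N n g ≤ 1)
    (hc : ∀ n, Continuous (N n)) : Continuous (tot N) := by
  refine continuous_tsum (fun n => continuous_const.mul (hc n)) summ fun n g => ?_
  rw [Real.norm_eq_abs, abs_of_nonneg (mul_nonneg (by positivity) (PN.nonneg (hN n) g))]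
  exact mul_le_of_le_one_right (by positivity) (h1 n g)

lemma tot_lt (hN : ∀ n, PN (N n)) (h1 : ∀ n g, N n g ≤ 1) {n : ℕ} {g : P}
    (h : tot N g < (1 / 2 : ℝ) ^ (n + 1)) : N n g < 1 := by
  have h2 : (1 / 2 : ℝ) ^ (n + 1) * N n g ≤ tot N g :=
    (tot_summ hN h1 g).le_tsum n fun m _ => mul_nonneg (by positivity) (PN.nonneg (hN m) g)
  by_contra hcon
  push Not at hcon
  have h3 : (1 / 2 : ℝ) ^ (n + 1) * 1 ≤ (1 / 2 : ℝ) ^ (n + 1) * N n g :=
    mul_le_mul_of_nonneg_left hcon (by positivity)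
  linarith

end

open Classical in
lemma conj_single {I : Type v} {G : I → Type u} [∀ i, Group (G i)] (i : I) (y : ∀ i, G i)
    (c : G i) :
    (Pi.mulSingle i (y i * c * (y i)⁻¹) : ∀ i, G i) = y * Pi.mulSingle i c * y⁻¹ := by
  funext j
  by_cases h : j = i
  · subst h
    simp
  · simp [Pi.mulSingle_eq_of_ne h]

/-- PRA -/
theorem pra : Bkp.{w} → Pra.{u, v, w} := by
  classical
  intro hB I G _ _ _ P' _ _ _ _ hM e he i hfc
  obtain ⟨U, hU⟩ := (𝓝 (1 : G i)).exists_antitone_basis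
  have h1 : ∀ n, ∃ V ∈ 𝓝 (1 : P'), ∀ g : G i, e (Pi.mulSingle i g) ∈ V → g ∈ U n := fun n =>
    nhds_factor hM e he i (U n) (hU.1.mem_of_mem trivial)
  choose V hV hVU using h1
  have h2 : ∀ n, ∃ N : P' → ℝ, PN N ∧ Continuous N ∧ (∀ g, N g ≤ 1) ∧ ∀ g, N g < 1 → g ∈ V n :=
    fun n => hB P' (V n) (hV n)
  choose N hN hNc hN1 hNV using h2
  have hT : PN (tot N) := tot_pn hN hN1
  have hTc : Continuous (tot N) := tot_cont hN hN1 hNc
  let φ : G i →* P' := e.toMonoidHom.comp (MonoidHom.mulSingle G i)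
  have hφ : ∀ g, φ g = e (Pi.mulSingle i g) := fun g => rfl
  have hφc : Continuous φ := by
    have h1 : Continuous fun g : G i => (Pi.mulSingle i g : ∀ i, G i) := continuous_mulSingle i
    exact he.comp h1
  have key : ∀ (x : P') (c : G i), φ (e.symm x i * c * (e.symm x i)⁻¹) = x * φ c * x⁻¹ := by
    intro x c
    rw [hφ, hφ, conj_single i (e.symm x) c, map_mul, map_mul, map_inv,
      MulEquiv.apply_symm_apply]
  have key' : ∀ (x : P') (c : G i), φ ((e.symm x i)⁻¹ * c * e.symm x i) = x⁻¹ * φ c * x := by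
    intro x c
    have := key x⁻¹ c
    rwa [map_inv, Pi.inv_apply, inv_inv, inv_inv] at this
  refine ⟨fun g => tot N (φ g), ⟨PN.comp hT φ, hTc.comp hφc, fun W hW => ?_⟩, fun W hW =>
    ⟨fun t ht => ?_, fun t ht c => ?_⟩⟩
  · obtain ⟨n, -, hn⟩ := hU.1.mem_iff.1 hW
    exact ⟨(1 / 2 : ℝ) ^ (n + 1), by positivity, fun g hg =>
      hn (hVU n g (hNV n _ (tot_lt hN hN1 hg)))⟩
  · rw [Ultrafilter.mem_map]
    have h3 : ∀ᶠ x in 𝓝 (1 : P'), tot N x < t / 2 :=
      (hTc.tendsto 1).eventually_lt_const (by rw [hT.one]; linarith)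
    filter_upwards [hW h3] with x hx c
    simp only
    have hx' : tot N x < t / 2 := hx
    rw [key, key']
    have h4 := hT.mul (x * φ c) x⁻¹
    have h5 := hT.mul x (φ c)
    have h6 := hT.mul (x⁻¹ * φ c) x
    have h7 := hT.mul x⁻¹ (φ c)
    have h8 := hT.inv x
    exact ⟨by linarith, by linarith⟩
  · rw [Ultrafilter.mem_map]
    have h3 : ∀ᶠ x in 𝓝 (1 : P'), tot N (x * φ c * x⁻¹ * (φ c)⁻¹) < t := by
      have hc : Continuous fun x : P' => tot N (x * φ c * x⁻¹ * (φ c)⁻¹) :=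
        hTc.comp (((continuous_id.mul continuous_const).mul continuous_inv).mul continuous_const)
      refine (hc.tendsto 1).eventually_lt_const ?_
      rw [one_mul, inv_one, mul_one, mul_inv_cancel, hT.one]
      exact ht
    have h4 : ∀ᶠ x in 𝓝 (1 : P'), tot N (x⁻¹ * φ c * x * (φ c)⁻¹) < t := by
      have hc : Continuous fun x : P' => tot N (x⁻¹ * φ c * x * (φ c)⁻¹) :=
        hTc.comp (((continuous_inv.mul continuous_const).mul continuous_id).mul continuous_const)
      refine (hc.tendsto 1).eventually_lt_const ?_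
      rw [inv_one, one_mul, mul_one, mul_inv_cancel, hT.one]
      exact ht
    filter_upwards [hW h3, hW h4] with x hx hx'
    have e1 : φ (e.symm x i * c * (e.symm x i)⁻¹ * c⁻¹) = x * φ c * x⁻¹ * (φ c)⁻¹ := by
      rw [map_mul, key, map_inv]
    have e2 : φ ((e.symm x i)⁻¹ * c * e.symm x i * c⁻¹) = x⁻¹ * φ c * x * (φ c)⁻¹ := by
      rw [map_mul, key', map_inv]
    exact ⟨by simp only; rw [e1]; exact hx, by simp only; rw [e2]; exact hx'⟩

end Pool.Agent.N225.UM2PRA
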